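import Pool.Agent.W207.SW.SpecS

/-!
# Project SW, part SPARSE: the uniqueness theorem for sparse windows
-/

open Filter Topology Set MeasureTheory

namespace W377.SW.Sparse

open W207.SW

lemma TstL.mono' {a b : ℝ} (hab : a ≤ b) {ψ : ℝ → ℝ} (h : TstL a ψ) : TstL b ψ := by
  obtain ⟨μ, h1, h2, h3⟩ := h.supp
  exact ⟨h.smooth, h.even, μ, h1, h2.trans_le hab, h3⟩

lemma Gap.anti {O : ℝ → ℝ} {a b : ℝ} (hab : a ≤ b) (h : Gap O b) : Gap O a :=
  fun ψ hψ => h ψ (TstL.mono' hab hψ)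

lemma allGaps {O : ℝ → ℝ} (h1 : Gap O 1)
    (hext : ∀ Λ : ℝ, 0 < Λ → Gap O Λ → ∃ r : ℝ, 0 < r ∧ Gap O (Λ + r)) :
    ∀ Λ : ℝ, 0 < Λ → Gap O Λ := by
  set S : Set ℝ := {Λ | 0 < Λ ∧ Gap O Λ} with hS
  have hne : S.Nonempty := ⟨1, one_pos, h1⟩
  have hub : ¬ BddAbove S := by
    intro hb
    have h1S : (1 : ℝ) ≤ sSup S := le_csSup hb ⟨one_pos, h1⟩
    have hpos : 0 < sSup S := one_pos.trans_le h1S
    have hg : Gap O (sSup S) := by
      intro ψ hψ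
      obtain ⟨μ, hm1, hm2, hm3⟩ := hψ.supp
      obtain ⟨Λ, hΛ, hlt⟩ := exists_lt_of_lt_csSup hne hm2
      exact hΛ.2 ψ ⟨hψ.smooth, hψ.even, μ, hm1, hlt, hm3⟩
    obtain ⟨r, hr, hgr⟩ := hext _ hpos hg
    have : sSup S + r ≤ sSup S := le_csSup hb ⟨by positivity, hgr⟩
    linarith
  intro Λ hΛ
  rw [not_bddAbove_iff] at hub
  obtain ⟨Λ', hΛ', hlt⟩ := hub Λ
  exact Gap.anti hlt.le hΛ'.2

theorem sparse (hONE : S_ONE) (hFEXT : S_FEXT) (hALL : S_ALL) : S_SPARSE := by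
  intro O C0 C δ ε N hGr hG1 hC hδ hε hN hwin
  set C1 : ℝ := max C0 1 with hC1
  have hC1pos : 0 < C1 := lt_max_of_lt_right one_pos
  have hGr1 : Gr O C1 := by
    refine ⟨hGr.1, ?_⟩
    filter_upwards [hGr.2, ae_restrict_mem measurableSet_Ioi] with u hu hu0
    have hu0' : 0 < u := hu0
    exact hu.trans (mul_le_mul_of_nonneg_right (le_max_left _ _) (by linarith))
  obtain ⟨C', ε', R1, hC', hε', hR1, hone⟩ := hONE C1 C δ ε hC1pos hC hδ hε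
  have hd3 : 0 < 1 + δ / 3 := by positivity
  have hhole : ∀ A : ℝ, ∃ R c : ℝ, A ≤ R ∧
      Hole O c R ((δ / 3) / (1 + δ / 3)) (ε' / (1 + δ / 3)) C' := by
    intro A
    obtain ⟨R, σ, hAR, hσ, hmono⟩ := hwin (max A R1)
    have hR1R : R1 ≤ R := (le_max_right _ _).trans hAR
    have hAR' : A ≤ R := (le_max_left _ _).trans hAR
    have hRpos : 0 < R := hR1.trans_le hR1R
    obtain ⟨c, hc, hcu⟩ := hone O N hGr1 hG1 hN R σ hR1R hσ hmono
    have hRR : R ≤ (1 + δ / 3) * R := by nlinarith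
    refine ⟨(1 + δ / 3) * R, c, hAR'.trans hRR, ?_, ?_⟩
    · refine hc.trans ?_
      apply mul_le_mul_of_nonneg_left _ hC'.le
      linarith
    · have e1 : (1 + δ / 3 / (1 + δ / 3)) * ((1 + δ / 3) * R) = (1 + 2 * δ / 3) * R := by
        field_simp
        ring
      have e2 : ε' / (1 + δ / 3) * ((1 + δ / 3) * R) = ε' * R := by
        field_simp
      rw [e1, e2]
      have hNn : ∀ᵐ u ∂(volume.restrict (Ioo ((1 + δ / 3) * R) ((1 + 2 * δ / 3) * R))), u ∉ N :=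
        ae_restrict_of_ae (hN.ae_notMem _)
      filter_upwards [hNn, ae_restrict_mem measurableSet_Ioo] with u hu hu2
      exact hcu u hu hu2.1 hu2.2
  have hd' : 0 < (δ / 3) / (1 + δ / 3) := by positivity
  have he' : 0 < ε' / (1 + δ / 3) := by positivity
  refine hALL O C1 hGr1 (allGaps hG1 ?_)
  intro Λ hΛ hgΛ
  obtain ⟨r, hr, hr2⟩ := hFEXT C1 C' _ _ Λ hC1pos hC' hd' he' hΛ
  exact ⟨r, hr, hr2 O hGr1 hgΛ hhole⟩

end W377.SW.Sparse
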